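import Mathlib
import Pool.Agent.Helper68.RR.Trans

/-!
# TE-21: Frobenius elements in the absolute Galois group
-/

set_option autoImplicit false

open NumberField

open scoped Pointwise

namespace Pool.Agent.Helper27.TE

/-- Frobenius elements exist in infinite Galois groups -/
theorem exists_frob {K Ω : Type} [Field K] [NumberField K] [Field Ω] [Algebra K Ω] [IsGalois K Ω]
    (Q : Ideal (𝓞 Ω)) (hQ : Q.IsMaximal) : ∃ g : Ω ≃ₐ[K] Ω, ∀ x : 𝓞 Ω,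
      g • x - x ^ Nat.card (𝓞 K ⧸ Q.comap (algebraMap (𝓞 K) (𝓞 Ω))) ∈ Q := by
  let _ : TopologicalSpace (𝓞 Ω) := ⊥
  have : DiscreteTopology (𝓞 Ω) := ⟨rfl⟩
  have : ContinuousSMul (Ω ≃ₐ[K] Ω) (𝓞 Ω) := by
    rw [continuousSMul_iff_stabilizer_isOpen]
    intro x
    have h1 : (MulAction.stabilizer (Ω ≃ₐ[K] Ω) x : Set (Ω ≃ₐ[K] Ω)) =
        (MulAction.stabilizer (Ω ≃ₐ[K] Ω) (x : Ω) : Set (Ω ≃ₐ[K] Ω)) := by
      ext g
      change g • x = x ↔ g (x : Ω) = (x : Ω)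
      constructor
      · intro h
        exact congrArg (fun y : 𝓞 Ω => (y : Ω)) h
      · intro h
        exact RingOfIntegers.ext h
    rw [h1]
    exact stabilizer_isOpen_of_isIntegral (K := K) (x : Ω)
  have hint : Algebra.IsIntegral (𝓞 K) (𝓞 Ω) :=
    Algebra.IsInvariant.isIntegral_of_profinite (G := Ω ≃ₐ[K] Ω)
  have hP : (Q.comap (algebraMap (𝓞 K) (𝓞 Ω))).IsMaximal :=
    Ideal.isMaximal_comap_of_isIntegral_of_isMaximal Q
  set P : Ideal (𝓞 K) := Q.comap (algebraMap (𝓞 K) (𝓞 Ω)) with hPdef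
  have hQP : Q.LiesOver P := ⟨rfl⟩
  have hfin : Finite (𝓞 K ⧸ P) := Ideal.finiteQuotientOfFreeOfNeBot P
    (Ring.ne_bot_of_isMaximal_of_not_isField hP (RingOfIntegers.not_isField K))
  let _ : Field (𝓞 K ⧸ P) := Ideal.Quotient.field P
  let _ : Field (𝓞 Ω ⧸ Q) := Ideal.Quotient.field Q
  let _ : Fintype (𝓞 K ⧸ P) := Fintype.ofFinite _
  have halg : Algebra.IsAlgebraic (𝓞 K ⧸ P) (𝓞 Ω ⧸ Q) := by
    have : Algebra.IsIntegral (𝓞 K ⧸ P) (𝓞 Ω ⧸ Q) := inferInstance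
    infer_instance
  let φ : (𝓞 Ω ⧸ Q) ≃ₐ[𝓞 K ⧸ P] (𝓞 Ω ⧸ Q) :=
    FiniteField.frobeniusAlgEquivOfAlgebraic (𝓞 K ⧸ P) (𝓞 Ω ⧸ Q)
  obtain ⟨⟨g, hg⟩, h⟩ := Ideal.Quotient.stabilizerHom_surjective_of_profinite
    (G := Ω ≃ₐ[K] Ω) P Q φ
  refine ⟨g, fun x => ?_⟩
  have h1 := DFunLike.congr_fun h (Ideal.Quotient.mk Q x)
  rw [← Ideal.Quotient.eq, map_pow]
  refine Eq.trans ?_ (h1.trans ?_)
  · rfl
  · rw [Nat.card_eq_fintype_card]
    rfl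

/-- `p`-th roots of unity are distinct modulo primes not above `p` -/
theorem apply_root_of_frob {K Ω : Type} [Field K] [NumberField K] [Field Ω] [Algebra K Ω]
    (p : ℕ) [Fact p.Prime] (Q : Ideal (𝓞 Ω)) (hQ : Q.IsMaximal) (hp : (p : 𝓞 Ω) ∉ Q)
    (g : Ω ≃ₐ[K] Ω) (N : ℕ) (hg : ∀ x : 𝓞 Ω, g • x - x ^ N ∈ Q) (ζ : Ω) (hζ : ζ ^ p = 1) :
    g ζ = ζ ^ N := by
  have hp0 : p ≠ 0 := (Fact.out : p.Prime).ne_zero
  have hζ0 : ζ ≠ 0 := by
    rintro rfl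
    rw [zero_pow hp0] at hζ
    exact zero_ne_one hζ
  have hint : ∀ ξ : Ω, ξ ^ p = 1 → IsIntegral ℤ ξ := fun ξ h =>
    IsIntegral.of_pow (Nat.pos_of_ne_zero hp0) (h ▸ isIntegral_one)
  let z : 𝓞 Ω := ⟨ζ, hint ζ hζ⟩
  let ξ : Ω := g ζ * (ζ ^ N)⁻¹
  have hξ : ξ ^ p = 1 := by
    have h1 : (ζ ^ N) ^ p = 1 := by rw [← pow_mul, mul_comm, pow_mul, hζ, one_pow]
    rw [mul_pow, inv_pow, h1, ← map_pow, hζ, map_one, inv_one, one_mul]
  let w : 𝓞 Ω := ⟨ξ, hint ξ hξ⟩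
  have hmul : w * z ^ N = g • z := by
    apply RingOfIntegers.ext
    change ξ * ζ ^ N = g ζ
    rw [inv_mul_cancel_right₀ (pow_ne_zero _ hζ0)]
  have hzunit : z ^ p = 1 := RingOfIntegers.ext hζ
  have hQ' : Q.IsPrime := hQ.isPrime
  have hw : w - 1 ∈ Q := by
    have h1 : (w - 1) * z ^ N ∈ Q := by
      have h2 := hg z
      rwa [← hmul, ← sub_one_mul] at h2
    refine (hQ'.mem_or_mem h1).resolve_right fun h3 => ?_
    have h4 : (z ^ N) ^ p ∈ Q := Ideal.pow_mem_of_mem Q h3 p (Nat.pos_of_ne_zero hp0)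
    rw [← pow_mul, mul_comm, pow_mul, hzunit, one_pow] at h4
    exact hQ'.ne_top ((Ideal.eq_top_iff_one Q).2 h4)
  by_cases h1 : w = 1
  · have h2 : ξ = 1 := congrArg (fun x : 𝓞 Ω => (x : Ω)) h1
    have h3 : ξ * ζ ^ N = g ζ := inv_mul_cancel_right₀ (pow_ne_zero _ hζ0) _
    rw [h2, one_mul] at h3
    exact h3.symm
  · exfalso
    apply hp
    have hgeom : (∑ i ∈ Finset.range p, w ^ i) = 0 := by
      have h2 : (w - 1) * ∑ i ∈ Finset.range p, w ^ i = 0 := by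
        rw [mul_geom_sum, sub_eq_zero]
        exact RingOfIntegers.ext hξ
      exact (mul_eq_zero.1 h2).resolve_left (sub_ne_zero.2 h1)
    have h3 : (p : 𝓞 Ω) = - ∑ i ∈ Finset.range p, (w ^ i - 1) := by
      rw [Finset.sum_sub_distrib, hgeom, Finset.sum_const, Finset.card_range, nsmul_one]
      ring
    rw [h3]
    refine Q.neg_mem (Ideal.sum_mem _ fun i _ => ?_)
    rw [← mul_geom_sum]
    exact Ideal.mul_mem_right _ _ hw

end Pool.Agent.Helper27.TE
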