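import Mathlib
import Pool.Agent.Helper45.FM.Glob

/-!
# TE-23: unramified characters at infinite level
-/

set_option autoImplicit false

open NumberField Pool.Agent.Helper16.TR

namespace Pool.Agent.Helper27.TE

/-- an open normal subgroup which contains all inertia groups defines an unramified extension -/
theorem unram_of_inertia {L Ω : Type} [Field L] [NumberField L] [Field Ω] [Algebra L Ω]
    [IsGalois L Ω] (F : IntermediateField L Ω) [NumberField F] [IsGalois L F]
    (hin : ∀ Q : Ideal (𝓞 Ω), Q.IsMaximal → ∀ g ∈ Q.inertia (Ω ≃ₐ[L] Ω),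
      g ∈ F.fixingSubgroup) :
    Helper45.FM.Unram L F := by
  intro 𝔭 h𝔭
  obtain ⟨Q, hQ, hQ'⟩ := Helper68.RR.exists_prime_above (K := F) (Ω := Ω) 𝔭
  have h1 := card_inertia L F 𝔭
  have h2 : 𝔭.inertia (F ≃ₐ[L] F) = ⊥ := by
    rw [eq_bot_iff]
    intro σ hσ
    rw [← hQ'] at hσ
    obtain ⟨γ, hγ, hγ'⟩ := Helper68.RR.lift_inertia F Q σ hσ
    have h3 := hin Q hQ γ hγ
    rw [← IntermediateField.restrictNormalHom_ker, MonoidHom.mem_ker, hγ'] at h3
    rw [h3]
    exact Subgroup.one_mem _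
  rw [h2, Subgroup.card_bot] at h1
  obtain ⟨-, h6⟩ := exists_ramIdx L F 𝔭 rfl
  rw [← h1] at h6
  exact h6

/-- a non-trivial unramified character of order `p` of the absolute Galois group contradicts the
class bound `0` -/
theorem not_classBound_zero {L Ω : Type} [Field L] [NumberField L] [Field Ω] [Algebra L Ω]
    [IsGalois L Ω] (p : ℕ) [Fact p.Prime] (θ : (Ω ≃ₐ[L] Ω) →* Multiplicative (ZMod p))
    (hopen : IsOpen (θ.ker : Set (Ω ≃ₐ[L] Ω))) (hne : θ ≠ 1)
    (hin : ∀ Q : Ideal (𝓞 Ω), Q.IsMaximal → ∀ g ∈ Q.inertia (Ω ≃ₐ[L] Ω), θ g = 1) :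
    ¬ Helper45.FM.ClassBound L p 0 := by
  intro hC
  obtain ⟨F, nF, gF, hF, -⟩ := Helper68.RR.exists_field θ.ker hopen
  have hp : p.Prime := Fact.out
  have hun : Helper45.FM.Unram L F := by
    refine unram_of_inertia F fun Q hQ g hg => ?_
    rw [hF, MonoidHom.mem_ker]
    exact hin Q hQ g hg
  have hcard : Nat.card (F ≃ₐ[L] F) = p := by
    have h1 : (AlgEquiv.restrictNormalHom F : (Ω ≃ₐ[L] Ω) →* (F ≃ₐ[L] F)).ker = θ.ker := by
      rw [IntermediateField.restrictNormalHom_ker, hF]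
    have h2 : (AlgEquiv.restrictNormalHom F : (Ω ≃ₐ[L] Ω) →* (F ≃ₐ[L] F)).ker.index
        = Nat.card (F ≃ₐ[L] F) := by
      rw [Subgroup.index_ker, MonoidHom.range_eq_top.2 (AlgEquiv.restrictNormalHom_surjective Ω)]
      exact Subgroup.card_top
    rw [← h2, h1, Subgroup.index_ker]
    have h3 : Nat.card θ.range ∣ p := by
      have h4 := Subgroup.card_subgroup_dvd_card θ.range
      have h5 : Nat.card (Multiplicative (ZMod p)) = p := by
        rw [Nat.card_congr Multiplicative.toAdd]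
        exact Nat.card_zmod p
      rwa [h5] at h4
    rcases (Nat.dvd_prime hp).1 h3 with h6 | h6
    · exfalso
      apply hne
      have h7 := Subgroup.eq_bot_of_card_eq θ.range h6
      exact (MonoidHom.range_eq_bot_iff).1 h7
    · exact h6
  have hcyc : IsCyclic (F ≃ₐ[L] F) := isCyclic_of_prime_card hcard
  have := hC F hun hcyc 1 (by rw [hcard, pow_one])
  omega

end Pool.Agent.Helper27.TE
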