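import Pool.Agent.Helper27.TE.Defs
import Pool.Agent.Helper68.RR.Trans

/-!
# TE-14: extensions are locally non-trivial or come from the class group
-/

set_option autoImplicit false
set_option linter.unusedSectionVars false

open NumberField Pool.Agent.Helper16.TR

open scoped Pointwise

namespace Pool.Agent.Helper27.TE

section coc

variable {K Ω : Type} [Field K] [NumberField K] [Field Ω] [Algebra K Ω] {F : Type} [Field F]
  {n : ℕ} {D : (Ω ≃ₐ[K] Ω) →* Matrix (Fin n) (Fin n) F} {b : Fin n → ℕ} {a c : ℕ}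
  {κ : (Ω ≃ₐ[K] Ω) → Matrix (Fin n) (Fin n) F}

lemma el_coc_one (hκ : Coc D b a c κ) : κ 1 = 0 := by
  have h := hκ.2.1 1 1 (map_one D) (map_one D)
  rw [mul_one] at h
  exact left_eq_add.1 h

lemma el_dinv {g : Ω ≃ₐ[K] Ω} (hg : D g = 1) : D g⁻¹ = 1 := by
  have h : D (g⁻¹ * g) = 1 := by rw [inv_mul_cancel, map_one]
  rwa [map_mul, hg, mul_one] at h

lemma el_coc_inv (hκ : Coc D b a c κ) {g : Ω ≃ₐ[K] Ω} (hg : D g = 1) : κ g⁻¹ = - κ g := by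
  have h := hκ.2.1 g⁻¹ g (el_dinv hg) hg
  rw [inv_mul_cancel, el_coc_one hκ] at h
  exact eq_neg_of_add_eq_zero_left h.symm

lemma el_coc_pow (hκ : Coc D b a c κ) {g : Ω ≃ₐ[K] Ω} (hg : D g = 1) (k : ℕ) :
    D (g ^ k) = 1 ∧ κ (g ^ k) = k • κ g := by
  induction k with
  | zero => exact ⟨by rw [pow_zero, map_one], by rw [pow_zero, el_coc_one hκ, zero_nsmul]⟩
  | succ k ih =>
    refine ⟨by rw [pow_succ, map_mul, ih.1, hg, mul_one], ?_⟩
    rw [pow_succ, hκ.2.1 _ _ ih.1 hg, ih.2, succ_nsmul]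

/-- the kernel of the cocycle -/
def elKer (hκ : Coc D b a c κ) : Subgroup (Ω ≃ₐ[K] Ω) where
  carrier := {g | D g = 1 ∧ κ g = 0}
  one_mem' := ⟨map_one D, el_coc_one hκ⟩
  mul_mem' := by
    rintro g h ⟨h1, h2⟩ ⟨h3, h4⟩
    refine ⟨by rw [map_mul, h1, h3, mul_one], ?_⟩
    rw [hκ.2.1 _ _ h1 h3, h2, h4, add_zero]
  inv_mem' := by
    rintro g ⟨h1, h2⟩
    exact ⟨el_dinv h1, by rw [el_coc_inv hκ h1, h2, neg_zero]⟩

lemma mem_elKer (hκ : Coc D b a c κ) {g : Ω ≃ₐ[K] Ω} :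
    g ∈ elKer hκ ↔ D g = 1 ∧ κ g = 0 := Iff.rfl

lemma el_dconj {g h : Ω ≃ₐ[K] Ω} (hg : D g = 1) : D (h * g * h⁻¹) = 1 := by
  rw [map_mul, map_mul, hg, mul_one, ← map_mul, mul_inv_cancel, map_one]

lemma elKer_normal (hκ : Coc D b a c κ) : (elKer hκ).Normal := by
  constructor
  rintro g ⟨h1, h2⟩ h
  refine ⟨el_dconj h1, ?_⟩
  rw [hκ.2.2.1 _ _ h1, h2, mul_zero, zero_mul]

lemma elKer_open [IsGalois K Ω] (hκ : Coc D b a c κ)
    (hopen : IsOpen (D.ker : Set (Ω ≃ₐ[K] Ω))) : IsOpen (elKer hκ : Set (Ω ≃ₐ[K] Ω)) := by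
  obtain ⟨U, hU, hU2⟩ := hκ.2.2.2.1
  have h1 : IsOpen ((D.ker ⊓ U : Subgroup (Ω ≃ₐ[K] Ω)) : Set (Ω ≃ₐ[K] Ω)) := by
    rw [Subgroup.coe_inf]
    exact hopen.inter hU
  refine Subgroup.isOpen_mono (H₁ := D.ker ⊓ U) ?_ h1
  rintro g ⟨h2, h3⟩
  exact ⟨h2, hU2 g h3 h2⟩

end coc

section smul

variable {E : Type} [Field E] [NumberField E] {G : Type} [Group G] [MulSemiringAction G (𝓞 E)]

lemma el_smul_eq_of_pow {P : Ideal (𝓞 E)} [hP : P.IsMaximal] {φ : G} {N : ℕ}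
    (hφ : ∀ x : 𝓞 E, φ • x - x ^ N ∈ P) : φ • P = P := by
  have hN : N ≠ 0 := by
    rintro rfl
    have h1 := hφ 0
    rw [smul_zero, pow_zero, zero_sub, neg_mem_iff] at h1
    exact hP.ne_top ((Ideal.eq_top_iff_one _).2 h1)
  have hprime : P.IsPrime := hP.isPrime
  have h1 : ∀ x : 𝓞 E, φ • x ∈ P ↔ x ∈ P := by
    intro x
    constructor
    · intro h
      have h2 := sub_mem h (hφ x)
      rw [sub_sub_cancel] at h2
      exact hprime.mem_of_pow_mem _ h2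
    · intro h
      have h2 := add_mem (hφ x) (Ideal.pow_mem_of_mem P h N (Nat.pos_of_ne_zero hN))
      rwa [sub_add_cancel] at h2
  ext x
  rw [Ideal.mem_pointwise_smul_iff_inv_smul_mem, ← h1, smul_inv_smul]

end smul

lemma el_exists_prime {E : Type} [Field E] [NumberField E] (P : Ideal (𝓞 E))
    [hP : P.IsMaximal] {m : ℕ} (hm : m ≠ 0) (h : ((m : ℕ) : 𝓞 E) ∈ P) :
    ∃ l : ℕ, l.Prime ∧ l ∣ m ∧ ((l : ℕ) : 𝓞 E) ∈ P := by
  induction m using Nat.strong_induction_on with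
  | _ m ih =>
    by_cases h1 : m = 1
    · rw [h1, Nat.cast_one] at h
      exact absurd ((Ideal.eq_top_iff_one _).2 h) hP.ne_top
    · obtain ⟨l, hl, k, rfl⟩ := Nat.exists_prime_and_dvd h1
      rw [Nat.cast_mul] at h
      rcases hP.isPrime.mem_or_mem h with h2 | h2
      · exact ⟨l, hl, dvd_mul_right _ _, h2⟩
      · have hk : k ≠ 0 := right_ne_zero_of_mul hm
        obtain ⟨l', h3, h4, h5⟩ := ih k (by
          have := hl.two_le
          nlinarith [Nat.pos_of_ne_zero hk]) hk h2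
        exact ⟨l', h3, h4.mul_left _, h5⟩

variable {K Ω : Type} [Field K] [NumberField K] [Field Ω] [Algebra K Ω] [IsGalois K Ω]

theorem loc_or_cls {S : Set (Ideal (𝓞 K))} {F : Type} [Field F] {n : ℕ} (p : ℕ) [Fact p.Prime]
    [CharP F p] (D : (Ω ≃ₐ[K] Ω) →* Matrix (Fin n) (Fin n) F) (b : Fin n → ℕ)
    {H : Type} [Group H] {ρ : (Ω ≃ₐ[K] Ω) →* H} (hT : TameIn K Ω S ρ) (hker : ρ.ker ≤ D.ker)
    (hopen : IsOpen (D.ker : Set (Ω ≃ₐ[K] Ω))) {a c : ℕ} (h : ExtEdge S p D b a c) :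
    LocEdge S p D b a c ∨ ClsEdge D b a c := by
  obtain ⟨κ, hκ, hκ2⟩ := h
  by_cases hcls : ∀ Q : Ideal (𝓞 Ω), Q.IsMaximal →
    ∀ g ∈ Q.inertia (Ω ≃ₐ[K] Ω), D g = 1 → κ g = 0
  · exact Or.inr ⟨κ, hκ, hcls⟩
  left
  push Not at hcls
  obtain ⟨Q, hQ, τ, hτ, hDτ, hκτ⟩ := hcls
  have hS : Q.comap (algebraMap (𝓞 K) (𝓞 Ω)) ∈ S := by
    by_contra hS
    exact hκτ (hκ2 Q hQ (Or.inl hS) τ hτ hDτ)
  have hp : (p : 𝓞 Ω) ∉ Q := by
    intro hp
    exact hκτ (hκ2 Q hQ (Or.inr hp) τ hτ hDτ)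
  refine ⟨Q, hQ, hS, hp, κ τ, hκτ, fun x y hxy => hκ.1 τ hDτ x y hxy, ?_⟩
  have hUn : (elKer hκ).Normal := elKer_normal hκ
  obtain ⟨E, nE, gE, hE, -⟩ := Helper68.RR.exists_field (elKer hκ) (elKer_open hκ hopen)
  have hmem : ∀ γ : Ω ≃ₐ[K] Ω, γ ∈ elKer hκ ↔ AlgEquiv.restrictNormalHom E γ = 1 := by
    intro γ
    rw [← hE, ← IntermediateField.restrictNormalHom_ker, MonoidHom.mem_ker]
  have hPE : (Q.comap (algebraMap (𝓞 E) (𝓞 Ω))).IsMaximal :=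
    Ideal.isMaximal_comap_of_isIntegral_of_isMaximal Q
  set PE := Q.comap (algebraMap (𝓞 E) (𝓞 Ω)) with hPEdef
  have hI : (Nat.card (PE.inertia (E ≃ₐ[K] E)) : 𝓞 E) ∉ PE := by
    intro hbad
    obtain ⟨l, hl, hdvd, hlP⟩ := el_exists_prime PE (Nat.card_pos.ne') hbad
    have : Fact l.Prime := ⟨hl⟩
    obtain ⟨σ, hσ⟩ := exists_prime_orderOf_dvd_card' l hdvd
    obtain ⟨γ, hγ, hγσ⟩ := Helper68.RR.lift_inertia E Q σ.1 σ.2
    have hlQ : (l : 𝓞 Ω) ∈ Q := by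
      have h1 : algebraMap (𝓞 E) (𝓞 Ω) (l : 𝓞 E) ∈ Q := hlP
      rwa [map_natCast] at h1
    have hpow : γ ^ l ∈ elKer hκ := by
      rw [hmem, map_pow, hγσ]
      have h1 : σ ^ l = 1 := by rw [← hσ]; exact pow_orderOf_eq_one σ
      exact congrArg Subtype.val h1
    have hγD : γ ∈ D.ker := by
      refine Helper68.RR.tame_mod hT Q D.ker hopen hker hγ (k := 1) hl hlQ ?_
      rw [pow_one]
      exact hpow.1
    have hγD' : D γ = 1 := hγD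
    have h2 := hpow.2
    rw [(el_coc_pow hκ hγD' l).2] at h2
    have hlp : l ≠ p := by
      rintro rfl
      exact hp hlQ
    have hlF : (l : F) ≠ 0 := by
      intro h3
      have h4 := (CharP.cast_eq_zero_iff F p l).1 h3
      exact hlp ((Nat.prime_dvd_prime_iff_eq (Fact.out : p.Prime) hl).1 h4).symm
    have h3 : κ γ = 0 := by
      rw [← Nat.cast_smul_eq_nsmul F] at h2
      exact (smul_eq_zero.1 h2).resolve_left hlF
    have h4 : AlgEquiv.restrictNormalHom E γ = 1 := (hmem γ).1 ⟨hγD', h3⟩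
    have h5 : σ = 1 := Subtype.ext (hγσ.symm.trans h4)
    rw [h5, orderOf_one] at hσ
    exact hl.one_lt.ne hσ
  intro g N hg
  have hφ : ∀ x : 𝓞 E, AlgEquiv.restrictNormalHom E g • x - x ^ N ∈ PE := by
    intro x
    change algebraMap (𝓞 E) (𝓞 Ω) (AlgEquiv.restrictNormalHom E g • x - x ^ N) ∈ Q
    rw [map_sub, Helper68.RR.algebraMap_smul, map_pow]
    exact hg _
  have hconj := Helper68.RR.conj_eq_pow hI (el_smul_eq_of_pow hφ) hφ
    (Helper68.RR.res_mem_inertia E Q hτ)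
  have hin : g * τ * g⁻¹ * (τ ^ N)⁻¹ ∈ elKer hκ := by
    rw [hmem, map_mul, map_mul, map_mul, map_inv, map_inv, map_pow, hconj, mul_inv_cancel]
  have h6 := hin.2
  obtain ⟨h7, h8⟩ := el_coc_pow hκ hDτ N
  rw [hκ.2.1 _ _ (el_dconj hDτ) (el_dinv h7), el_coc_inv hκ h7, h8, hκ.2.2.1 _ _ hDτ,
    ← sub_eq_add_neg, sub_eq_zero] at h6
  have h9 : D g⁻¹ * D g = 1 := by rw [← map_mul, inv_mul_cancel, map_one]
  calc D g * κ τ = D g * κ τ * (D g⁻¹ * D g) := by rw [h9, mul_one]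
    _ = (D g * κ τ * D g⁻¹) * D g := by simp only [mul_assoc]
    _ = N • (κ τ * D g) := by rw [h6, smul_mul_assoc]

end Pool.Agent.Helper27.TE
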