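import Mathlib

/-!
# Tame representations with acyclic residual quiver: definitions
-/

set_option autoImplicit false

open NumberField Matrix

open scoped Pointwise

namespace Pool.Agent.Helper27.TE

section alg

variable {Γ : Type} [Group Γ] {R F : Type} [CommRing R] [Field F] {n : ℕ}

/-- The augmentation filtration of `R ^ n` with respect to the subgroup `P`: `J 0` is everything,
and `J (j + 1)` is spanned by all `g v - v` with `g` in `P` and `v` in `J j`. -/
def J (ρ : Γ →* Matrix (Fin n) (Fin n) R) (P : Subgroup Γ) : ℕ → Submodule R (Fin n → R)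
  | 0 => ⊤
  | j + 1 => Submodule.span R {w | ∃ g ∈ P, ∃ v ∈ J ρ P j, w = ρ g *ᵥ v - v}

/-- The matrices `ρ g` are, modulo the kernel of `res`, block upper triangular with respect to
`b`, with block diagonal part `D g`; the subgroup `P` acts trivially on the diagonal blocks, and its
index is invertible in `F`. -/
structure BlockData (res : R →+* F) (ρ : Γ →* Matrix (Fin n) (Fin n) R)
    (D : Γ →* Matrix (Fin n) (Fin n) F) (b : Fin n → ℕ) (P : Subgroup Γ) : Prop where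
  surj : Function.Surjective res
  tri : ∀ g x y, b y < b x → res (ρ g x y) = 0
  diag : ∀ g x y, b x = b y → D g x y = res (ρ g x y)
  off : ∀ g x y, b x ≠ b y → D g x y = 0
  triv : ∀ g ∈ P, D g = 1
  index : (P.index : F) ≠ 0

/-- The diagonal block with index `a` occurs as a quotient of the submodule `N`: there is a non-zero
additive map from `N` to the block `a`, semilinear and equivariant. -/
def Occ (res : R →+* F) (ρ : Γ →* Matrix (Fin n) (Fin n) R)
    (D : Γ →* Matrix (Fin n) (Fin n) F) (b : Fin n → ℕ) (N : Submodule R (Fin n → R))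
    (a : ℕ) : Prop :=
  ∃ ψ : N →+ (Fin n → F), ψ ≠ 0 ∧ (∀ (r : R) (v : N), ψ (r • v) = res r • ψ v) ∧
    (∀ (v : N) (x : Fin n), b x ≠ a → ψ v x = 0) ∧
    ∀ (g : Γ) (v w : N), (w : Fin n → R) = ρ g *ᵥ (v : Fin n → R) → ψ w = D g *ᵥ ψ v

/-- A non-zero equivariant homomorphism from `P` to the homomorphisms from the block `a` to the
block `c`, trivial on the elements of `P` which act trivially. -/
def KEdge (ρ : Γ →* Matrix (Fin n) (Fin n) R) (D : Γ →* Matrix (Fin n) (Fin n) F)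
    (b : Fin n → ℕ) (P : Subgroup Γ) (a c : ℕ) : Prop :=
  ∃ κ : Γ → Matrix (Fin n) (Fin n) F,
    (∀ g ∈ P, ∀ x y, κ g x y ≠ 0 → b y = a ∧ b x = c) ∧
    (∀ g ∈ P, ∀ h ∈ P, κ (g * h) = κ g + κ h) ∧
    (∀ h, ∀ g ∈ P, κ (h * g * h⁻¹) = D h * κ g * D h⁻¹) ∧
    (∀ g ∈ P, ρ g = 1 → κ g = 0) ∧
    ∃ g ∈ P, κ g ≠ 0

end alg

section arith

variable {K Ω : Type} [Field K] [NumberField K] [Field Ω] [Algebra K Ω] {F : Type} [Field F]
  {n : ℕ}

/-- A non-zero continuous homomorphism `κ` from the kernel of `D` (the values outside this kernel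
are irrelevant) to the homomorphisms from the block `a` to the block `c`, equivariant for the action
of the Galois group. -/
def Coc (D : (Ω ≃ₐ[K] Ω) →* Matrix (Fin n) (Fin n) F) (b : Fin n → ℕ) (a c : ℕ)
    (κ : (Ω ≃ₐ[K] Ω) → Matrix (Fin n) (Fin n) F) : Prop :=
  (∀ g, D g = 1 → ∀ x y, κ g x y ≠ 0 → b y = a ∧ b x = c) ∧
  (∀ g h, D g = 1 → D h = 1 → κ (g * h) = κ g + κ h) ∧
  (∀ g h, D g = 1 → κ (h * g * h⁻¹) = D h * κ g * D h⁻¹) ∧
  (∃ U : Subgroup (Ω ≃ₐ[K] Ω), IsOpen (U : Set (Ω ≃ₐ[K] Ω)) ∧ ∀ g ∈ U, D g = 1 → κ g = 0) ∧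
  ∃ g, D g = 1 ∧ κ g ≠ 0

/-- There is an extension of the block `a` by the block `c`, unramified outside the primes in `S`
not above `p`: a non-zero continuous equivariant homomorphism from the kernel of `D` to the
homomorphisms from the block `a` to the block `c`, trivial on the inertia groups at all primes not
above `S` and at all primes above `p`. -/
def ExtEdge (S : Set (Ideal (𝓞 K))) (p : ℕ) (D : (Ω ≃ₐ[K] Ω) →* Matrix (Fin n) (Fin n) F)
    (b : Fin n → ℕ) (a c : ℕ) : Prop :=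
  ∃ κ, Coc D b a c κ ∧ ∀ Q : Ideal (𝓞 Ω), Q.IsMaximal →
    (Q.comap (algebraMap (𝓞 K) (𝓞 Ω)) ∉ S ∨ (p : 𝓞 Ω) ∈ Q) →
    ∀ g ∈ Q.inertia (Ω ≃ₐ[K] Ω), D g = 1 → κ g = 0

/-- There is an everywhere unramified extension of the block `a` by the block `c`. -/
def ClsEdge (D : (Ω ≃ₐ[K] Ω) →* Matrix (Fin n) (Fin n) F) (b : Fin n → ℕ) (a c : ℕ) : Prop :=
  ∃ κ, Coc D b a c κ ∧ ∀ Q : Ideal (𝓞 Ω), Q.IsMaximal →
    ∀ g ∈ Q.inertia (Ω ≃ₐ[K] Ω), D g = 1 → κ g = 0

/-- The block `c` and the twist of the block `a` by the cyclotomic character have a common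
constituent as representations of the decomposition group of some prime in `S`, not above `p`: there
is a non-zero `T` from the block `a` to the block `c` with `D g T = N T D g` for all `g` which act
on the residue field of `Q` as the `N`-th power. -/
def LocEdge (S : Set (Ideal (𝓞 K))) (p : ℕ) (D : (Ω ≃ₐ[K] Ω) →* Matrix (Fin n) (Fin n) F)
    (b : Fin n → ℕ) (a c : ℕ) : Prop :=
  ∃ Q : Ideal (𝓞 Ω), Q.IsMaximal ∧ Q.comap (algebraMap (𝓞 K) (𝓞 Ω)) ∈ S ∧ (p : 𝓞 Ω) ∉ Q ∧
    ∃ T : Matrix (Fin n) (Fin n) F, T ≠ 0 ∧ (∀ x y, T x y ≠ 0 → b y = a ∧ b x = c) ∧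
      ∀ (g : Ω ≃ₐ[K] Ω) (N : ℕ), (∀ x : 𝓞 Ω, g • x - x ^ N ∈ Q) → D g * T = N • (T * D g)

end arith

end Pool.Agent.Helper27.TE
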